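import Pool.Agent.helper23.TH.Spec

set_option autoImplicit false

open scoped BigOperators

namespace Pool.Agent.helper23.TH

open Classical in
/-- number of closed walks with `R (z i) (z j)` -/
noncomputable def BADn {V : Type} [Fintype V] (A R : V → V → Prop) (k : ℕ) (i j : ZMod (2 * k + 2)) : ℕ :=
  ((Finset.univ : Finset (ZMod (2 * k + 2) → V)).filter (fun z => CWk A k z ∧ R (z i) (z j))).card

open Classical in
theorem BAD_rot {V : Type} [Fintype V] (A R : V → V → Prop) (k : ℕ) (i j c : ZMod (2 * k + 2)) :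
    BADn A R k i j = BADn A R k (i + c) (j + c) := by
  unfold BADn
  apply Finset.card_bij' (fun z _ => fun m => z (m - c)) (fun z _ => fun m => z (m + c))
  · intro z hz
    rw [Finset.mem_filter] at hz ⊢
    refine ⟨Finset.mem_univ _, fun m => ?_, ?_⟩
    · have := hz.2.1 (m - c)
      have e : m - c + 1 = m + 1 - c := by ring
      rwa [e] at this
    · simpa using hz.2.2
  · intro z hz
    rw [Finset.mem_filter] at hz ⊢
    refine ⟨Finset.mem_univ _, fun m => ?_, hz.2.2⟩
    have := hz.2.1 (m + c)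
    have e : m + c + 1 = m + 1 + c := by ring
    rwa [e] at this
  · intro z _
    funext m
    simp
  · intro z _
    funext m
    simp

open Classical in
theorem BAD_symm {V : Type} [Fintype V] (A R : V → V → Prop) (hR : ∀ u v, R u v → R v u) (k : ℕ)
    (i j : ZMod (2 * k + 2)) : BADn A R k i j = BADn A R k j i := by
  unfold BADn
  congr 1
  apply Finset.filter_congr
  intro z _
  exact and_congr_right (fun _ => ⟨hR _ _, hR _ _⟩)

open Classical in
theorem BAD_card_prod {α β : Type} [Fintype α] [Fintype β] (p : α → β → Prop) :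
    ((Finset.univ : Finset (α × β)).filter (fun q => p q.1 q.2)).card =
      ∑ a, ((Finset.univ : Finset β).filter (fun b => p a b)).card := by
  rw [Finset.card_filter, Fintype.sum_prod_type]
  apply Finset.sum_congr rfl
  intro a _
  rw [Finset.card_filter]

open Classical in
theorem BAD_wk_cons {V : Type} (A : V → V → Prop) (k : ℕ) (x : V) (Q : Fin (k + 1) → V) :
    Wk A (k + 1) (Fin.cons x Q : Fin (k + 2) → V) ↔ A x (Q 0) ∧ Wk A k Q := by
  unfold Wk
  constructor
  · intro h
    refine ⟨?_, fun i => ?_⟩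
    · have := h 0
      simpa using this
    · have := h i.succ
      rw [← Fin.succ_castSucc, Fin.cons_succ, Fin.cons_succ] at this
      exact this
  · rintro ⟨h0, h1⟩ i
    refine Fin.cases ?_ (fun i => ?_) i
    · simpa using h0
    · rw [← Fin.succ_castSucc, Fin.cons_succ, Fin.cons_succ]
      exact h1 i

open Classical in
theorem BAD_core (hWC : WC_stmt) (hGLU : GLU_stmt) {V : Type} [Fintype V] (A R : V → V → Prop)
    (hA : ∀ u v, A u v → A v u) (s Δ : ℕ)
    (hs : ∀ u v, (Finset.univ.filter (fun w => A v w ∧ R w u)).card ≤ s)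
    (hΔ : ∀ v, dg A Finset.univ v ≤ Δ) (k : ℕ) (t' : Fin (k + 1)) :
    (BADn A R k 0 ((t'.succ : Fin (k + 2)).1 : ZMod (2 * k + 2)) : ℝ) ^ 2 ≤
      s * Δ * hh A k * hh A (k + 1) := by
  set W : V → V → ℝ := fun a b => ((am A) ^ (k + 1)) a b with hW
  have hWc : ∀ a b, W a b = (((Finset.univ : Finset (Fin (k + 1 + 1) → V)).filter
      (fun P => Wk A (k + 1) P ∧ P 0 = a ∧ P (Fin.last (k + 1)) = b)).card : ℝ) := fun a b =>
    (hWC V A (k + 1) a b).symm
  have hW0 : ∀ a b, 0 ≤ W a b := fun a b => by rw [hWc]; positivity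
  set G : V → V → ℝ := fun x y => ∑ x0, if A x0 x then W x0 y ^ 2 else 0 with hG
  have hG0 : ∀ x y, 0 ≤ G x y := fun x y => Finset.sum_nonneg (fun i _ => by split_ifs <;> positivity)
  set g : V → V → ℝ := fun x y => Real.sqrt (s * G x y) with hg
  -- step 1
  have h1 : BADn A R k 0 ((t'.succ : Fin (k + 2)).1 : ZMod (2 * k + 2)) ≤
      ((Finset.univ : Finset ((Fin (k + 2) → V) × (Fin (k + 2) → V))).filter (fun q =>
        (Wk A (k + 1) q.1 ∧ R (q.1 0) (q.1 t'.succ)) ∧
          (Wk A (k + 1) q.2 ∧ q.2 0 = q.1 0 ∧ q.2 (Fin.last (k + 1)) = q.1 (Fin.last (k + 1))))).card := by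
    obtain ⟨hm, hi, _⟩ := hGLU V A hA k
    unfold BADn
    apply Finset.card_le_card_of_injOn (fun z : ZMod (2 * k + 2) → V =>
      ((fun i : Fin (k + 2) => z (i.1 : ZMod (2 * k + 2))),
        (fun i : Fin (k + 2) => z (-(i.1 : ZMod (2 * k + 2))))))
    · intro z hz
      rw [Finset.mem_coe, Finset.mem_filter] at hz
      have := hm hz.2.1
      rw [Finset.mem_coe, Finset.mem_filter]
      refine ⟨Finset.mem_univ _, ⟨this.1, ?_⟩, this.2.1, this.2.2.1.symm, this.2.2.2.symm⟩
      have h := hz.2.2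
      simpa using h
    · intro z hz z' hz' h
      rw [Finset.mem_coe, Finset.mem_filter] at hz hz'
      exact hi hz.2.1 hz'.2.1 h
  -- step 2
  have h2 : (((Finset.univ : Finset ((Fin (k + 2) → V) × (Fin (k + 2) → V))).filter (fun q =>
        (Wk A (k + 1) q.1 ∧ R (q.1 0) (q.1 t'.succ)) ∧
          (Wk A (k + 1) q.2 ∧ q.2 0 = q.1 0 ∧ q.2 (Fin.last (k + 1)) = q.1 (Fin.last (k + 1))))).card : ℝ)
      = ∑ P : Fin (k + 2) → V, if Wk A (k + 1) P ∧ R (P 0) (P t'.succ) then
          W (P 0) (P (Fin.last (k + 1))) else 0 := by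
    have hc := BAD_card_prod (fun P P' : Fin (k + 2) → V => (Wk A (k + 1) P ∧ R (P 0) (P t'.succ)) ∧
          (Wk A (k + 1) P' ∧ P' 0 = P 0 ∧ P' (Fin.last (k + 1)) = P (Fin.last (k + 1))))
    refine (congrArg Nat.cast (Eq.trans (by congr!) hc)).trans ?_
    push_cast
    apply Finset.sum_congr rfl
    intro P _
    split_ifs with h
    · rw [hWc]
      congr 2
      ext P'
      simp [h]
    · rw [Nat.cast_eq_zero, Finset.card_eq_zero]
      ext P'
      simp only [Finset.mem_filter, Finset.mem_univ, true_and, Finset.notMem_empty, iff_false]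
      intro h'
      exact h h'.1
  -- step 3
  have h3 : (∑ P : Fin (k + 2) → V, if Wk A (k + 1) P ∧ R (P 0) (P t'.succ) then
          W (P 0) (P (Fin.last (k + 1))) else 0) =
      ∑ Q : Fin (k + 1) → V, ∑ x : V, if (A x (Q 0) ∧ Wk A k Q) ∧ R x (Q t') then
          W x (Q (Fin.last k)) else 0 := by
    rw [← (Fin.consEquiv (fun _ : Fin (k + 2) => V)).sum_comp, Fintype.sum_prod_type, Finset.sum_comm]
    apply Finset.sum_congr rfl
    intro Q _
    apply Finset.sum_congr rfl
    intro x _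
    have e1 : (Fin.consEquiv (fun _ : Fin (k + 2) => V)) (x, Q) = (Fin.cons x Q : Fin (k + 2) → V) := rfl
    rw [e1]
    have e2 : (Fin.cons x Q : Fin (k + 2) → V) 0 = x := rfl
    have e3 : (Fin.cons x Q : Fin (k + 2) → V) t'.succ = Q t' := rfl
    have e4 : (Fin.cons x Q : Fin (k + 2) → V) (Fin.last (k + 1)) = Q (Fin.last k) := rfl
    rw [e2, e3, e4]
    simp only [BAD_wk_cons]
  -- step 4
  have h4 : ∀ Q : Fin (k + 1) → V, (∑ x : V, if (A x (Q 0) ∧ Wk A k Q) ∧ R x (Q t') then
          W x (Q (Fin.last k)) else 0) ≤ if Wk A k Q then g (Q 0) (Q (Fin.last k)) else 0 := by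
    intro Q
    split_ifs with h
    · rw [← Finset.sum_filter]
      apply Real.le_sqrt_of_sq_le
      refine le_trans sq_sum_le_card_mul_sum_sq ?_
      have e1 : ((Finset.univ.filter (fun x => (A x (Q 0) ∧ Wk A k Q) ∧ R x (Q t'))).card : ℝ) ≤ s := by
        have : (Finset.univ.filter (fun x => (A x (Q 0) ∧ Wk A k Q) ∧ R x (Q t'))).card ≤ s := by
          refine le_trans (Finset.card_le_card ?_) (hs (Q t') (Q 0))
          intro x hx
          rw [Finset.mem_filter] at hx ⊢
          exact ⟨hx.1, hA _ _ hx.2.1.1, hx.2.2⟩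
        exact_mod_cast this
      have e2 : ∑ x ∈ Finset.univ.filter (fun x => (A x (Q 0) ∧ Wk A k Q) ∧ R x (Q t')),
          W x (Q (Fin.last k)) ^ 2 ≤ G (Q 0) (Q (Fin.last k)) := by
        rw [Finset.sum_filter]
        apply Finset.sum_le_sum
        intro x _
        split_ifs with h1 h2 h2
        · exact le_rfl
        · exact absurd h1.1.1 h2
        · positivity
        · exact le_rfl
      exact mul_le_mul e1 e2 (Finset.sum_nonneg (fun i _ => sq_nonneg _)) (Nat.cast_nonneg _)
    · apply le_of_eq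
      apply Finset.sum_eq_zero
      intro x _
      rw [if_neg]
      exact fun h' => h h'.1.2
  -- step 5
  have h5 : (∑ Q : Fin (k + 1) → V, if Wk A k Q then g (Q 0) (Q (Fin.last k)) else 0) =
      ∑ q : V × V, ((am A) ^ k) q.1 q.2 * g q.1 q.2 := by
    have e1 : ∀ q : V × V, ((am A) ^ k) q.1 q.2 * g q.1 q.2 =
        ∑ Q : Fin (k + 1) → V, if Wk A k Q ∧ Q 0 = q.1 ∧ Q (Fin.last k) = q.2 then g q.1 q.2 else 0 := by
      intro q
      rw [← hWC V A k q.1 q.2, ← Finset.sum_filter, Finset.sum_const, nsmul_eq_mul]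
    simp_rw [e1]
    rw [Finset.sum_comm]
    apply Finset.sum_congr rfl
    intro Q _
    split_ifs with h
    · rw [Finset.sum_eq_single (Q 0, Q (Fin.last k))]
      · simp [h]
      · rintro ⟨a, b⟩ _ hne
        rw [if_neg]
        rintro ⟨_, h1, h2⟩
        simp only at h1 h2
        exact hne (by rw [h1, h2])
      · intro h'; exact absurd (Finset.mem_univ _) h'
    · symm
      apply Finset.sum_eq_zero
      intro q _
      rw [if_neg]
      exact fun h' => h h'.1
  -- step 6
  have hN : (BADn A R k 0 ((t'.succ : Fin (k + 2)).1 : ZMod (2 * k + 2)) : ℝ) ≤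
      ∑ q : V × V, ((am A) ^ k) q.1 q.2 * g q.1 q.2 := by
    calc (BADn A R k 0 ((t'.succ : Fin (k + 2)).1 : ZMod (2 * k + 2)) : ℝ) ≤ _ := by
          exact_mod_cast h1
      _ = _ := h2
      _ = _ := h3
      _ ≤ _ := Finset.sum_le_sum (fun Q _ => h4 Q)
      _ = _ := h5
  have h7 : (∑ q : V × V, ((am A) ^ k) q.1 q.2 * g q.1 q.2) ^ 2 ≤
      (∑ q : V × V, (((am A) ^ k) q.1 q.2) ^ 2) * ∑ q : V × V, (g q.1 q.2) ^ 2 :=
    Finset.sum_mul_sq_le_sq_mul_sq _ _ _
  have h8 : (∑ q : V × V, (((am A) ^ k) q.1 q.2) ^ 2) = hh A k := by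
    rw [Fintype.sum_prod_type]
    rfl
  have h9 : ∑ q : V × V, (g q.1 q.2) ^ 2 ≤ s * Δ * hh A (k + 1) := by
    have e1 : ∀ q : V × V, (g q.1 q.2) ^ 2 = s * G q.1 q.2 := by
      intro q
      exact Real.sq_sqrt (mul_nonneg (Nat.cast_nonneg _) (hG0 _ _))
    simp_rw [e1]
    rw [← Finset.mul_sum, mul_assoc]
    apply mul_le_mul_of_nonneg_left _ (Nat.cast_nonneg _)
    rw [Fintype.sum_prod_type]
    have e2 : ∑ x, ∑ y, G x y = ∑ x0, ∑ y, (dg A Finset.univ x0 : ℝ) * W x0 y ^ 2 := by
      have e3 : ∀ x y, G x y = ∑ x0, if A x0 x then W x0 y ^ 2 else 0 := fun x y => rfl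
      simp_rw [e3]
      calc ∑ x, ∑ y, ∑ x0, (if A x0 x then W x0 y ^ 2 else 0)
          = ∑ x, ∑ x0, ∑ y, (if A x0 x then W x0 y ^ 2 else 0) := by
            apply Finset.sum_congr rfl
            intro x _
            rw [Finset.sum_comm]
        _ = ∑ x0, ∑ x, ∑ y, (if A x0 x then W x0 y ^ 2 else 0) := by rw [Finset.sum_comm]
        _ = ∑ x0, ∑ y, ∑ x, (if A x0 x then W x0 y ^ 2 else 0) := by
            apply Finset.sum_congr rfl
            intro x _
            rw [Finset.sum_comm]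
        _ = _ := by
            apply Finset.sum_congr rfl
            intro x0 _
            apply Finset.sum_congr rfl
            intro y _
            rw [← Finset.sum_filter, Finset.sum_const, nsmul_eq_mul]
            rfl
    rw [e2]
    have e4 : hh A (k + 1) = ∑ x0, ∑ y, W x0 y ^ 2 := rfl
    rw [e4, Finset.mul_sum]
    apply Finset.sum_le_sum
    intro x0 _
    rw [Finset.mul_sum]
    apply Finset.sum_le_sum
    intro y _
    apply mul_le_mul_of_nonneg_right _ (sq_nonneg _)
    exact_mod_cast hΔ x0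
  have hhk : 0 ≤ hh A k := by
    rw [← h8]
    exact Finset.sum_nonneg (fun i _ => sq_nonneg _)
  calc (BADn A R k 0 ((t'.succ : Fin (k + 2)).1 : ZMod (2 * k + 2)) : ℝ) ^ 2
      ≤ (∑ q : V × V, ((am A) ^ k) q.1 q.2 * g q.1 q.2) ^ 2 :=
        pow_le_pow_left₀ (Nat.cast_nonneg _) hN 2
    _ ≤ _ := h7
    _ ≤ hh A k * (s * Δ * hh A (k + 1)) := by
        rw [h8]
        exact mul_le_mul_of_nonneg_left h9 hhk
    _ = _ := by ring

theorem BAD (hWC : WC_stmt) (hGLU : GLU_stmt) : BAD_stmt := by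
  classical
  intro V _ A R hA hR s Δ hs hΔ k i j hij
  have hcore : ∀ i j : ZMod (2 * k + 2), i ≠ j → (j - i).val ≤ k + 1 →
      (BADn A R k i j : ℝ) ^ 2 ≤ s * Δ * hh A k * hh A (k + 1) := by
    intro i j hij hv
    rw [BAD_rot A R k i j (-i)]
    have e0 : i + -i = 0 := by ring
    have e1 : j + -i = j - i := by ring
    rw [e0, e1]
    have hpos : 0 < (j - i).val := by
      rw [Nat.pos_iff_ne_zero]
      intro h
      rw [ZMod.val_eq_zero, sub_eq_zero] at h
      exact hij h.symm
    have h := BAD_core hWC hGLU A R hA s Δ hs hΔ k ⟨(j - i).val - 1, by omega⟩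
    have e2 : (((⟨(j - i).val - 1, by omega⟩ : Fin (k + 1)).succ : Fin (k + 2)).1 :
        ZMod (2 * k + 2)) = j - i := by
      simp only [Fin.succ_mk]
      rw [Nat.sub_add_cancel hpos]
      exact ZMod.natCast_zmod_val _
    rw [e2] at h
    exact h
  have hmain : (BADn A R k i j : ℝ) ^ 2 ≤ s * Δ * hh A k * hh A (k + 1) := by
    rcases Nat.lt_or_ge (k + 1) (j - i).val with h | h
    · rw [BAD_symm A R hR]
      apply hcore j i hij.symm
      have hne : j - i ≠ 0 := sub_ne_zero.2 hij.symm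
      have e1 : i - j = -(j - i) := by ring
      rw [e1, ZMod.neg_val, if_neg hne]
      omega
    · exact hcore i j hij h
  exact hmain

end Pool.Agent.helper23.TH
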