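import Pool.Agent.helper23.TH.Spec

set_option autoImplicit false

open scoped BigOperators

namespace Pool.Agent.helper23.TH

open Classical in
theorem WI_herm {V : Type} [Fintype V] (A : V → V → Prop) (hA : ∀ u v, A u v → A v u) :
    (am A).IsHermitian := by
  ext a b
  simp only [am, Matrix.conjTranspose_apply, Matrix.of_apply, star_trivial]
  have : A b a ↔ A a b := ⟨hA b a, hA a b⟩
  simp [this]

open Classical in
theorem WI_pow {V : Type} [Fintype V] (B : Matrix V V ℝ) (hB : B.IsHermitian) (k : ℕ) :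
    B ^ k = (hB.eigenvectorUnitary : Matrix V V ℝ) *
      Matrix.diagonal (fun i => hB.eigenvalues i ^ k) *
        star (hB.eigenvectorUnitary : Matrix V V ℝ) := by
  conv_lhs => rw [hB.spectral_theorem]
  rw [← map_pow, Matrix.diagonal_pow, Unitary.conjStarAlgAut_apply]
  rfl

open Classical in
theorem WI_trace {V : Type} [Fintype V] (B : Matrix V V ℝ) (hB : B.IsHermitian) (k : ℕ) :
    (B ^ k).trace = ∑ i, hB.eigenvalues i ^ k := by
  rw [WI_pow B hB k, Matrix.trace_mul_comm, ← mul_assoc]
  have h : star (hB.eigenvectorUnitary : Matrix V V ℝ) * (hB.eigenvectorUnitary : Matrix V V ℝ) = 1 :=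
    Unitary.coe_star_mul_self _
  rw [h, one_mul, Matrix.trace_diagonal]

open Classical in
theorem WI_hh {V : Type} [Fintype V] (A : V → V → Prop) (hA : ∀ u v, A u v → A v u) (j : ℕ) :
    hh A j = ∑ i, (WI_herm A hA).eigenvalues i ^ (2 * j) := by
  rw [← WI_trace, two_mul, pow_add]
  have ht : ((am A) ^ j).transpose = (am A) ^ j := by
    rw [Matrix.transpose_pow]
    congr 1
    have := WI_herm A hA
    rwa [Matrix.IsHermitian, Matrix.conjTranspose_eq_transpose_of_trivial] at this
  unfold hh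
  rw [Matrix.trace]
  apply Finset.sum_congr rfl
  intro a _
  rw [Matrix.diag_apply, Matrix.mul_apply]
  apply Finset.sum_congr rfl
  intro b _
  have h2 : (am A ^ j) b a = (am A ^ j) a b := by
    have := congrFun (congrFun ht a) b
    rwa [Matrix.transpose_apply] at this
  rw [h2, sq]

open Classical in
theorem WI_low {V : Type} [Fintype V] (A : V → V → Prop) (hA : ∀ u v, A u v → A v u) (l : ℕ)
    (hn : 0 < Fintype.card V) :
    ((∑ v, (dg A Finset.univ v : ℝ)) / Fintype.card V) ^ (2 * l) ≤ hh A l := by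
  set hB := WI_herm A hA with hBdef
  set n : ℝ := (Fintype.card V : ℝ) with hnn
  have hn0 : 0 < n := by rw [hnn]; exact_mod_cast hn
  set U := (hB.eigenvectorUnitary : Matrix V V ℝ) with hU
  have hUU : star U * U = 1 := Unitary.coe_star_mul_self _
  have hUU' : U * star U = 1 := Unitary.coe_mul_star_self _
  -- coordinates of the all one vector
  set c : V → ℝ := fun i => ∑ a, U a i with hc
  have hD : ∑ v, (dg A Finset.univ v : ℝ) = ∑ i, hB.eigenvalues i * c i ^ 2 := by
    have h1 : ∑ v, (dg A Finset.univ v : ℝ) = ∑ a, ∑ b, (am A) a b := by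
      apply Finset.sum_congr rfl
      intro a _
      simp only [dg, am, Matrix.of_apply]
      rw [Finset.sum_boole]
    have h2 := WI_pow (am A) hB 1
    rw [pow_one] at h2
    have h3 : ∀ a b, (am A) a b = ∑ i, U a i * hB.eigenvalues i * U b i := by
      intro a b
      conv_lhs => rw [h2]
      rw [Matrix.mul_apply]
      apply Finset.sum_congr rfl
      intro i _
      rw [Matrix.mul_diagonal, pow_one, Matrix.star_apply, star_trivial]
    rw [h1]
    simp_rw [h3]
    have h4 : ∀ i, hB.eigenvalues i * c i ^ 2 = ∑ a, ∑ b, U a i * hB.eigenvalues i * U b i := by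
      intro i
      rw [hc]
      simp only
      rw [sq, Finset.sum_mul_sum, Finset.mul_sum]
      apply Finset.sum_congr rfl
      intro a _
      rw [Finset.mul_sum]
      apply Finset.sum_congr rfl
      intro b _
      ring
    simp_rw [h4]
    rw [Finset.sum_comm]
    have h5 : ∀ y : V, ∑ x, ∑ i, U x i * hB.eigenvalues i * U y i =
        ∑ i, ∑ x, U x i * hB.eigenvalues i * U y i := fun y => Finset.sum_comm
    simp_rw [h5]
    rw [Finset.sum_comm]
    apply Finset.sum_congr rfl
    intro i _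
    rw [Finset.sum_comm]
  have hcn : ∑ i, c i ^ 2 = n := by
    have h3 : ∀ a b, ∑ i, U a i * U b i = if a = b then 1 else 0 := by
      intro a b
      have := congrFun (congrFun hUU' a) b
      rw [Matrix.mul_apply, Matrix.one_apply] at this
      rw [← this]
      apply Finset.sum_congr rfl
      intro i _
      rw [Matrix.star_apply, star_trivial]
    have h4 : ∀ i, c i ^ 2 = ∑ a, ∑ b, U a i * U b i := by
      intro i
      rw [hc]
      simp only
      rw [sq, Finset.sum_mul_sum]
    simp_rw [h4]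
    rw [Finset.sum_comm]
    have h5 : ∀ y : V, ∑ i, ∑ b, U y i * U b i = 1 := by
      intro y
      rw [Finset.sum_comm]
      simp_rw [h3]
      simp
    simp_rw [h5]
    simp [hnn]
  have hw : ∑ i, c i ^ 2 / n = 1 := by
    rw [← Finset.sum_div, hcn, div_self hn0.ne']
  have hw0 : ∀ i ∈ (Finset.univ : Finset V), 0 ≤ c i ^ 2 / n := fun i _ => by positivity
  have hw1 : ∀ i, c i ^ 2 / n ≤ 1 := by
    intro i
    rw [← hw]
    exact Finset.single_le_sum (f := fun i => c i ^ 2 / n) hw0 (Finset.mem_univ i)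
  have hDn : (∑ v, (dg A Finset.univ v : ℝ)) / n = ∑ i, c i ^ 2 / n * hB.eigenvalues i := by
    rw [hD, Finset.sum_div]
    apply Finset.sum_congr rfl
    intro i _
    ring
  rw [hDn, WI_hh A hA l]
  refine le_trans (Real.pow_arith_mean_le_arith_mean_pow_of_even Finset.univ _ _ hw0 hw
    (even_two_mul l)) ?_
  apply Finset.sum_le_sum
  intro i _
  have h1 : 0 ≤ hB.eigenvalues i ^ (2 * l) := by
    rw [pow_mul]; positivity
  calc c i ^ 2 / n * hB.eigenvalues i ^ (2 * l) ≤ 1 * hB.eigenvalues i ^ (2 * l) :=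
        mul_le_mul_of_nonneg_right (hw1 i) h1
    _ = _ := one_mul _

theorem WI_holder {ι : Type} [Fintype ι] (μ : ι → ℝ) (hμ : ∀ i, 0 ≤ μ i) (l : ℕ) (hl : 2 ≤ l) :
    ∑ i, μ i ^ (l - 1) ≤ (∑ i, μ i ^ l) ^ (((l : ℝ) - 1) / l) * (Fintype.card ι : ℝ) ^ (1 / (l : ℝ)) := by
  have hl0 : (0 : ℝ) < l := by positivity
  have hl1 : (0 : ℝ) < (l : ℝ) - 1 := by
    have : (2 : ℝ) ≤ l := by exact_mod_cast hl
    linarith
  have hpq : Real.HolderConjugate ((l : ℝ) / (l - 1)) l := by
    rw [Real.holderConjugate_iff]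
    constructor
    · rw [lt_div_iff₀ hl1]; linarith
    · field_simp; ring
  have h := Real.inner_le_Lp_mul_Lq_of_nonneg Finset.univ hpq (f := fun i => μ i ^ (l - 1))
    (g := fun _ => (1 : ℝ)) (fun i _ => pow_nonneg (hμ i) _) (fun i _ => zero_le_one)
  simp only [mul_one, Real.one_rpow, Finset.sum_const, Finset.card_univ, nsmul_eq_mul] at h
  have h2 : ∀ i, (μ i ^ (l - 1)) ^ ((l : ℝ) / (l - 1)) = μ i ^ l := by
    intro i
    rw [← Real.rpow_natCast (μ i) (l - 1), ← Real.rpow_mul (hμ i), ← Real.rpow_natCast (μ i) l]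
    congr 1
    rw [Nat.cast_sub (by omega)]
    push_cast
    field_simp
  simp_rw [h2] at h
  have h3 : 1 / ((l : ℝ) / (l - 1)) = ((l : ℝ) - 1) / l := by field_simp
  rw [h3] at h
  exact h

theorem WI : WI_stmt := by
  classical
  intro V _ A hA l hl hD
  have hn : 0 < Fintype.card V := by
    by_contra h
    have h0 : Fintype.card V = 0 := by omega
    rw [Fintype.card_eq_zero_iff] at h0
    simp at hD
  have hn0 : (0 : ℝ) < Fintype.card V := by exact_mod_cast hn
  set x : ℝ := ((∑ v, (dg A Finset.univ v : ℝ)) / Fintype.card V) ^ 2 with hx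
  have hx0 : 0 < x := by positivity
  have h1 : x ^ l ≤ hh A l := by
    rw [hx, ← pow_mul]
    exact WI_low A hA l hn
  have hpos : 0 < hh A l := lt_of_lt_of_le (by positivity) h1
  refine ⟨hpos, ?_⟩
  rcases Nat.lt_or_ge l 2 with h2 | h2
  · have hl1 : l = 1 := by omega
    subst hl1
    have h3 : hh A 0 = Fintype.card V := by
      rw [WI_hh A hA 0]
      simp
    rw [pow_one] at h1
    simp only [Nat.sub_self, h3, Nat.cast_one, div_one, Real.rpow_one]
    exact mul_le_mul_of_nonneg_left h1 hn0.le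
  · set μ : V → ℝ := fun i => (WI_herm A hA).eigenvalues i ^ 2 with hμ
    have hμ0 : ∀ i, 0 ≤ μ i := fun i => sq_nonneg _
    have e1 : hh A (l - 1) = ∑ i, μ i ^ (l - 1) := by
      rw [WI_hh A hA (l - 1)]
      apply Finset.sum_congr rfl
      intro i _
      rw [hμ]
      simp only
      rw [← pow_mul]
    have e2 : hh A l = ∑ i, μ i ^ l := by
      rw [WI_hh A hA l]
      apply Finset.sum_congr rfl
      intro i _
      rw [hμ]
      simp only
      rw [← pow_mul]
    have h3 := WI_holder μ hμ0 l h2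
    rw [← e1, ← e2] at h3
    have hl0 : (0 : ℝ) < l := by positivity
    have h4 : x ≤ (hh A l) ^ (1 / (l : ℝ)) := by
      have h5 : (x ^ l) ^ (1 / (l : ℝ)) ≤ (hh A l) ^ (1 / (l : ℝ)) :=
        Real.rpow_le_rpow (by positivity) h1 (by positivity)
      have h6 : (x ^ l) ^ (1 / (l : ℝ)) = x := by
        rw [← Real.rpow_natCast, ← Real.rpow_mul hx0.le]
        have : (l : ℝ) * (1 / l) = 1 := by field_simp
        rw [this, Real.rpow_one]
      rwa [h6] at h5
    have h7 : (hh A l) ^ (((l : ℝ) - 1) / l) * (hh A l) ^ (1 / (l : ℝ)) = hh A l := by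
      rw [← Real.rpow_add hpos]
      have : ((l : ℝ) - 1) / l + 1 / l = 1 := by field_simp; ring
      rw [this, Real.rpow_one]
    calc hh A (l - 1) * x ≤ ((hh A l) ^ (((l : ℝ) - 1) / l) * (Fintype.card V : ℝ) ^ (1 / (l : ℝ))) *
          (hh A l) ^ (1 / (l : ℝ)) := by
          apply mul_le_mul h3 h4 hx0.le
          positivity
      _ = (Fintype.card V : ℝ) ^ (1 / (l : ℝ)) * ((hh A l) ^ (((l : ℝ) - 1) / l) * (hh A l) ^ (1 / (l : ℝ))) := by
          ring
      _ = _ := by rw [h7]

end Pool.Agent.helper23.TH
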