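import Pool.Agent.helper48.TH.Spec

set_option autoImplicit false

namespace TP.TW

open DP MeasureTheory Finset

open Classical in
theorem INF (she : SHE_stmt) (yng : YNG_stmt) (cxe : CXE_stmt) : INF_stmt := by
  intro n κ T E F Λ A M p hp hE hF hM
  have hpow : (0 : ℝ) < 2 ^ n := by positivity
  have hp0 : 0 ≤ p := by rw [hp]; positivity
  rcases hp0.eq_or_lt with h0 | hpos
  · -- the case `p = 0`
    have hE0 : (#{x | E x} : ℝ) = 0 := by
      have := hp.symm.trans h0.symm
      rcases div_eq_zero_iff.1 this with h | h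
      · exact h
      · exact absurd h hpow.ne'
    have hE0' : ({x | E x} : Finset (Fin n → Bool)) = ∅ := by
      rw [← Finset.card_eq_zero]
      exact_mod_cast hE0
    have hz : ∀ τ ∈ T, (#{x | E x ∧ F τ x} : ℝ) / 2 ^ n = 0 := by
      intro τ _
      have : ({x | E x ∧ F τ x} : Finset (Fin n → Bool)) = ∅ := by
        rw [Finset.eq_empty_iff_forall_notMem] at hE0' ⊢
        intro x hx
        exact hE0' x (by simp only [Finset.mem_filter, Finset.mem_univ, true_and] at hx ⊢; exact hx.1)
      rw [this]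
      simp
    rw [Finset.sum_eq_zero hz, ← h0]
    simp
  · -- the density of `E`
    set f : (Fin n → Bool) → ℝ := fun x => if E x then 1 / p else 0 with hf
    have hf0 : ∀ x, 0 ≤ f x := by
      intro x
      simp only [hf]
      split_ifs
      · positivity
      · exact le_rfl
    have hpne : p ≠ 0 := hpos.ne'
    have hcE : (#{x | E x} : ℝ) = p * 2 ^ n := by
      rw [hp]; field_simp
    have havf : av f = 1 := by
      unfold av
      simp only [hf]
      rw [← Finset.sum_filter, Finset.sum_const, nsmul_eq_mul, hcE]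
      field_simp
    have hEtf : Et f = Real.log (1 / p) := by
      unfold Et
      rw [havf]
      have h1 : ph 1 = 0 := by simp [ph]
      rw [h1, sub_zero]
      have h2 : ∀ x, ph (f x) = if E x then (1 / p) * Real.log (1 / p) else 0 := by
        intro x
        simp only [hf]
        split_ifs
        · rfl
        · simp [ph]
      unfold av
      simp only [h2]
      rw [← Finset.sum_filter, Finset.sum_const, nsmul_eq_mul, hcE]
      field_simp
    obtain ⟨d, hd0, hdsum, hd⟩ := she n f hf0
    have hfΛ : ∀ x y : Fin n → Bool, (∀ i ∈ Λ, x i = y i) → f x = f y := by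
      intro x y hxy
      simp only [hf]
      by_cases h : E x
      · rw [if_pos h, if_pos ((hE x y hxy).1 h)]
      · rw [if_neg h, if_neg (fun h' => h ((hE x y hxy).2 h'))]
    -- one `τ`
    have hone : ∀ τ ∈ T, (#{x | E x ∧ F τ x} : ℝ) / 2 ^ n ≤
        p * (∑ i ∈ A τ ∩ Λ, d i + 2 * ((#{x | F τ x} : ℝ) / 2 ^ n)) := by
      intro τ hτ
      obtain ⟨c1, c2, c3, c4⟩ := cxe n (A τ) f
      have hY := yng n (cex (A τ) f) (F τ) (c1 hf0) (c2.trans havf)
      rw [← c3 (F τ) (hF τ hτ)] at hY
      have hav : av (fun x => if F τ x then f x else 0) = (1 / p) * ((#{x | E x ∧ F τ x} : ℝ) / 2 ^ n) := by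
        unfold av
        have h3 : ∀ x, (if F τ x then f x else 0) = if E x ∧ F τ x then 1 / p else 0 := by
          intro x
          simp only [hf]
          by_cases hx : F τ x
          · by_cases hx' : E x
            · simp [hx, hx']
            · simp [hx, hx']
          · simp [hx]
        simp only [h3]
        rw [← Finset.sum_filter, Finset.sum_const, nsmul_eq_mul]
        ring
      rw [hav] at hY
      have hEt : Et (cex (A τ) f) ≤ ∑ i ∈ A τ ∩ Λ, d i := by
        rw [c4 Λ hfΛ]
        exact hd (A τ ∩ Λ)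
      have h5 : ∀ X : ℝ, X = p * ((1 / p) * X) := by
        intro X
        rw [one_div, ← mul_assoc, mul_inv_cancel₀ hpne, one_mul]
      rw [h5 ((#{x | E x ∧ F τ x} : ℝ) / 2 ^ n)]
      refine mul_le_mul_of_nonneg_left ?_ hpos.le
      linarith
    have hsumd : ∑ τ ∈ T, ∑ i ∈ A τ ∩ Λ, d i ≤ M * Real.log (1 / p) := by
      have h6 : ∀ τ, ∑ i ∈ A τ ∩ Λ, d i = ∑ i ∈ Λ, if i ∈ A τ then d i else 0 := by
        intro τ
        rw [← Finset.sum_filter]
        refine Finset.sum_congr ?_ fun _ _ => rfl
        ext i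
        simp only [Finset.mem_filter, Finset.mem_inter]
        exact and_comm
      simp only [h6]
      rw [Finset.sum_comm]
      calc ∑ i ∈ Λ, ∑ τ ∈ T, (if i ∈ A τ then d i else 0)
          = ∑ i ∈ Λ, (#{τ ∈ T | i ∈ A τ} : ℝ) * d i := by
            refine Finset.sum_congr rfl fun i _ => ?_
            rw [← Finset.sum_filter, Finset.sum_const, nsmul_eq_mul]
        _ ≤ ∑ i ∈ Λ, (M : ℝ) * d i := by
            refine Finset.sum_le_sum fun i hi => ?_
            refine mul_le_mul_of_nonneg_right ?_ (hd0 i)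
            exact_mod_cast hM i hi
        _ = M * ∑ i ∈ Λ, d i := by rw [Finset.mul_sum]
        _ ≤ M * ∑ i, d i := by
            refine mul_le_mul_of_nonneg_left ?_ (Nat.cast_nonneg M)
            exact Finset.sum_le_sum_of_subset_of_nonneg (Finset.subset_univ Λ) fun i _ _ => hd0 i
        _ = M * Real.log (1 / p) := by rw [hdsum, hEtf]
    calc ∑ τ ∈ T, (#{x | E x ∧ F τ x} : ℝ) / 2 ^ n
        ≤ ∑ τ ∈ T, p * (∑ i ∈ A τ ∩ Λ, d i + 2 * ((#{x | F τ x} : ℝ) / 2 ^ n)) :=
          Finset.sum_le_sum hone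
      _ = p * ∑ τ ∈ T, ∑ i ∈ A τ ∩ Λ, d i + 2 * p * ∑ τ ∈ T, (#{x | F τ x} : ℝ) / 2 ^ n := by
          rw [← Finset.mul_sum, Finset.sum_add_distrib, ← Finset.mul_sum]
          ring
      _ ≤ p * (M * Real.log (1 / p)) + 2 * p * ∑ τ ∈ T, (#{x | F τ x} : ℝ) / 2 ^ n := by
          have := mul_le_mul_of_nonneg_left hsumd hpos.le
          linarith

end TP.TW
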