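import Pool.Agent.helper48.TH.Spec

set_option autoImplicit false

namespace TP.TW

open DP MeasureTheory Finset

private theorem YNG_young (a b : ℝ) (ha : 0 ≤ a) : a * b ≤ ph a - a + Real.exp b := by
  rcases ha.eq_or_lt with h | h
  · subst h
    have := Real.exp_pos b
    simp only [ph, zero_mul]
    linarith
  · have h1 : Real.exp b = a * Real.exp (b - Real.log a) := by
      rw [Real.exp_sub, Real.exp_log h]
      field_simp
    have h2 : b - Real.log a + 1 ≤ Real.exp (b - Real.log a) := Real.add_one_le_exp _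
    have h3 : a * (b - Real.log a + 1) ≤ a * Real.exp (b - Real.log a) :=
      mul_le_mul_of_nonneg_left h2 ha
    rw [h1]
    unfold ph
    linarith

theorem YNG : YNG_stmt := by
  intro n g F _ hg hav
  have hpt : ∀ x : Fin n → Bool, (if F x then g x else 0) ≤
      ph (g x) - g x + 1 + 2 * (if F x then (1 : ℝ) else 0) := by
    intro x
    by_cases hx : F x
    · rw [if_pos hx, if_pos hx]
      have h1 := YNG_young (g x) 1 (hg x)
      have h2 : Real.exp 1 < 2.7182818286 := Real.exp_one_lt_d9
      linarith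
    · rw [if_neg hx, if_neg hx]
      have h1 := YNG_young (g x) 0 (hg x)
      rw [Real.exp_zero] at h1
      linarith
  have hpow : (0 : ℝ) < 2 ^ n := by positivity
  have hcard : ∑ _x : Fin n → Bool, (1 : ℝ) = 2 ^ n := by
    simp
  have hF : ∑ x : Fin n → Bool, (if F x then (1 : ℝ) else 0) = (#{x | F x} : ℝ) := by
    simp
  have hsum : ∑ x : Fin n → Bool, (if F x then g x else 0) ≤
      ∑ x : Fin n → Bool, ph (g x) - ∑ x : Fin n → Bool, g x + 2 ^ n + 2 * (#{x | F x} : ℝ) := by
    calc ∑ x : Fin n → Bool, (if F x then g x else 0)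
        ≤ ∑ x : Fin n → Bool, (ph (g x) - g x + 1 + 2 * (if F x then (1 : ℝ) else 0)) :=
          Finset.sum_le_sum fun x _ => hpt x
      _ = ∑ x : Fin n → Bool, ph (g x) - ∑ x : Fin n → Bool, g x + 2 ^ n + 2 * (#{x | F x} : ℝ) := by
          rw [Finset.sum_add_distrib, Finset.sum_add_distrib, Finset.sum_sub_distrib, ← Finset.mul_sum,
            hF, hcard]
  have hg1 : ∑ x : Fin n → Bool, g x = 2 ^ n := by
    have h := hav
    unfold av at h
    rw [div_eq_one_iff_eq hpow.ne'] at h
    exact h
  have hEt : Et g = (∑ x : Fin n → Bool, ph (g x)) / 2 ^ n := by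
    unfold Et
    rw [hav]
    simp [av, ph]
  rw [hEt]
  unfold av
  rw [← mul_div_assoc, ← add_div]
  refine div_le_div_of_nonneg_right ?_ hpow.le
  linarith

end TP.TW
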